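import Pool.Agent.H54.Emd2

set_option autoImplicit false

namespace Pool.Agent.Results.MP_12e089_an.BoundedInS

/-- Q2, positive answer, for both metrics: there is a function `f` of `s` alone such that the
uniform measures on `s`-point subsets of the grid, with the Wasserstein-1 distance `W`, embed into
a finite-dimensional `ℓ₁` space with distortion at most `f s`. -/
theorem result : ∃ f : ℕ → ℝ, ∀ (Δ d s : ℕ), 1 ≤ s →
    ∀ ρ : (Fin d → Fin Δ) → (Fin d → Fin Δ) → ℝ,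
      ((ρ = fun x y => ∑ i, |((x i).val : ℝ) - (y i).val|) ∨
        ρ = fun x y => √(∑ i, (((x i).val : ℝ) - (y i).val) ^ 2)) →
    ∀ W : Finset (Fin d → Fin Δ) → Finset (Fin d → Fin Δ) → ℝ,
      (∀ S T, W S T = sInf {c : ℝ | ∃ π : (Fin d → Fin Δ) → (Fin d → Fin Δ) → ℝ,
        (∀ x y, 0 ≤ π x y) ∧
        (∀ x, ∑ y, π x y = if x ∈ S then 1 / (s : ℝ) else 0) ∧
        (∀ y, ∑ x, π x y = if y ∈ T then 1 / (s : ℝ) else 0) ∧
        c = ∑ x, ∑ y, π x y * ρ x y}) →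
    ∃ (n : ℕ) (F : Finset (Fin d → Fin Δ) → Fin n → ℝ) (r : ℝ), 0 < r ∧
      ∀ S T : Finset (Fin d → Fin Δ), S.card = s → T.card = s →
        r * W S T ≤ ∑ j, |F S j - F T j| ∧ ∑ j, |F S j - F T j| ≤ f s * r * W S T := by
  choose f hf using Pool.Agent.H54.Emd.main
  refine ⟨f, fun Δ d s hs ρ hρ W hW => ?_⟩
  obtain ⟨C, _, _, φ, a, ha, h⟩ := Pool.Agent.H54.Emd.grid_cuts Δ d ρ hρ
  simp only [hW]
  exact hf s _ C φ ρ a hs ha h

end Pool.Agent.Results.MP_12e089_an.BoundedInS
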